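import Mathlib
import Pool.Agent.H776R2.SchDil.Ideal
import Pool.Agent.H776R2.SchDil.Strict
import Pool.Agent.Results.MP_fd02da_an.SchattenIsometries
set_option autoImplicit false
set_option linter.unusedSectionVars false
open scoped ENNReal InnerProductSpace Topology
open Module ContinuousLinearMap Filter
open Pool.Agent.Helper872.Sch Pool.Agent.H776R2.SchDil
open Pool.Agent.Results.MP_fd02da_an.SchattenIsometries (SchattenClass toOp toOp_compact toOp_fin
  toOp_injective norm_def norm_rpow projS coef coef_le coef_apply coef_projS coef_projS_ne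
  toOp_projS trPow_comb norm_projS proj proj_compact)

/-!
# An absolute contraction on the Schatten class without an isometric dilation

`SchattenClass p H` is the Schatten class `𝔖_p(H)` (the compact operators `a` on `H` with
`trace (a† a)^(p/2)` finite, with the Schatten norm), `toOp` is the inclusion of `𝔖_p(H)` into
`B(H)`, and `trPow 1 a` is the trace norm of the compact operator `a`, with values in `[0, ∞]`.
-/

namespace Pool.Agent.Results.MP_f41f1b_an.NoIsometricDilation

universe u
variable {H K : Type u} [NormedAddCommGroup H] [InnerProductSpace ℂ H] [CompleteSpace H]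
  [NormedAddCommGroup K] [InnerProductSpace ℂ K] [CompleteSpace K]
variable {p : ℝ} [hp : Fact (1 ≤ p)]

/-- `T` is an absolute contraction of `𝔖_p(H)`: it maps operators of trace class to operators of
trace class, it does not increase the trace norm of operators of trace class, and it does not
increase the operator norm. -/
structure IsAbsoluteContraction (T : SchattenClass p H →L[ℂ] SchattenClass p H) : Prop where
  trace_mem : ∀ x, trPow 1 (toOp x) < ∞ → trPow 1 (toOp (T x)) < ∞
  trace_le : ∀ x, trPow 1 (toOp x) < ∞ → trPow 1 (toOp (T x)) ≤ trPow 1 (toOp x)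
  op_le : ∀ x, ‖toOp (T x)‖ ≤ ‖toOp x‖

/-- `V` is a (not necessarily surjective) linear isometry. -/
def IsIsometric {X Y : Type*} [NormedAddCommGroup X] [NormedSpace ℂ X] [NormedAddCommGroup Y]
    [NormedSpace ℂ Y] (V : X →L[ℂ] Y) : Prop :=
  ∀ x, ‖V x‖ = ‖x‖

/-- `P` is a projection of norm one from `Y` onto the range of `J`. -/
def IsNormOneProjection {X Y : Type*} [NormedAddCommGroup X] [NormedSpace ℂ X]
    [NormedAddCommGroup Y] [NormedSpace ℂ Y] (J : X →L[ℂ] Y) (P : Y →L[ℂ] Y) : Prop :=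
  ‖P‖ = 1 ∧ (∀ y, P (P y) = P y) ∧ Set.range P = Set.range J

/-- The operator `T` on the Banach space `X` has an isometric dilation on the Banach space `Y`:
there are a linear isometric embedding `J : X → Y`, a projection `P` of norm one from `Y` onto the
range of `J`, and a linear isometry `U` of `Y` such that `P U^n J = J T^n` for all `n ≥ 0`. -/
def HasIsometricDilationOn {X : Type*} (Y : Type*) [NormedAddCommGroup X] [NormedSpace ℂ X]
    [NormedAddCommGroup Y] [NormedSpace ℂ Y] (T : X →L[ℂ] X) : Prop :=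
  ∃ (J : X →L[ℂ] Y) (P U : Y →L[ℂ] Y), IsIsometric J ∧ IsNormOneProjection J P ∧ IsIsometric U ∧
    ∀ (n : ℕ) (x : X), P ((U ^ n) (J x)) = J ((T ^ n) x)

theorem norm_eq_np (a : SchattenClass p H) : ‖a‖ = (np p (toOp a)).toReal := norm_def a

/-- strict convexity -/
theorem eq_of_norm_add (hp1 : 1 < p) {a c : SchattenClass p H} (h1 : ‖a‖ = ‖c‖)
    (h2 : 2 * ‖a‖ ≤ ‖a + c‖) : a = c := by
  have hp0 : 0 < p := by linarith
  rcases eq_or_ne ‖a‖ 0 with h0 | h0
  · have ha : a = 0 := norm_eq_zero.1 h0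
    have hc : c = 0 := norm_eq_zero.1 (h1 ▸ h0)
    rw [ha, hc]
  · have hr : 0 < ‖a‖ := lt_of_le_of_ne (norm_nonneg _) (Ne.symm h0)
    set r : ℂ := ((‖a‖⁻¹ : ℝ) : ℂ) with hrdef
    have hrn : ‖r‖ = ‖a‖⁻¹ := by
      rw [hrdef, Complex.norm_real, Real.norm_of_nonneg (by positivity)]
    have n1 : ‖r • a‖ = 1 := by rw [norm_smul, hrn, inv_mul_cancel₀ h0]
    have n2 : ‖r • c‖ = 1 := by rw [norm_smul, hrn, ← h1, inv_mul_cancel₀ h0]
    have n3 : 2 ≤ ‖r • a + r • c‖ := by
      rw [← smul_add, norm_smul, hrn]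
      calc (2 : ℝ) = ‖a‖⁻¹ * (2 * ‖a‖) := by field_simp
        _ ≤ _ := by gcongr
    have t1 : trPow p (toOp (r • a)) ≤ 1 := by rw [← norm_rpow, n1]; simp
    have t2 : trPow p (toOp (r • c)) ≤ 1 := by rw [← norm_rpow, n2]; simp
    have t3 : 2 ^ p ≤ trPow p (toOp (r • a) + toOp (r • c)) := by
      rw [← map_add, ← norm_rpow]
      calc (2 : ℝ≥0∞) ^ p = ENNReal.ofReal (2 ^ p) := by
            rw [← ENNReal.ofReal_rpow_of_pos (by norm_num)]
            norm_num
        _ ≤ _ := by
            apply ENNReal.ofReal_le_ofReal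
            gcongr
    have h3 := eq_of_midpoint (toOp_compact _) (toOp_compact _) hp1 t1 t2 t3
    have h4 : r • a = r • c := toOp_injective h3
    have hr0 : r ≠ 0 := by
      rw [hrdef]
      exact_mod_cast inv_ne_zero h0
    exact smul_right_injective _ hr0 h4

section Example

variable {ι : Type*} [Nontrivial ι] (b : HilbertBasis ι ℂ H) (i j : ι)

/-- the operator `x ↦ ½ (x_{ii} + x_{jj}) (e_{ii} + e_{jj})` -/
noncomputable def exT : SchattenClass p H →L[ℂ] SchattenClass p H :=
  (1 / 2 : ℂ) • (coef b i + coef b j).smulRight (projS p b i + projS p b j)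

theorem exT_apply (x : SchattenClass p H) :
    exT b i j x = ((1 / 2 : ℂ) * (coef b i x + coef b j x)) • (projS p b i + projS p b j) := by
  rw [exT, smul_apply, smulRight_apply, add_apply, smul_smul]

variable {i j} (hij : i ≠ j)
include hij

theorem exT_left : exT b i j (projS p b i) = (1 / 2 : ℂ) • (projS p b i + projS p b j) := by
  rw [exT_apply, coef_projS, coef_projS_ne b hij.symm, add_zero, mul_one]

theorem exT_e : exT b i j (projS p b i + projS p b j) = projS p b i + projS p b j := by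
  rw [exT_apply, map_add, map_add, coef_projS, coef_projS, coef_projS_ne b hij,
    coef_projS_ne b hij.symm]
  norm_num

theorem exT_pow_e (n : ℕ) :
    ((exT b i j) ^ n) (projS p b i + projS p b j) = projS p b i + projS p b j := by
  induction n with
  | zero => rw [pow_zero]; rfl
  | succ n ih => rw [pow_succ, mul_apply_eq_comp, exT_e b hij, ih]

theorem exT_pow_left (n : ℕ) :
    ((exT b i j) ^ (n + 1)) (projS p b i) = (1 / 2 : ℂ) • (projS p b i + projS p b j) := by
  rw [pow_succ, mul_apply_eq_comp, exT_left b hij, map_smul, exT_pow_e b hij]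

theorem op_bound (x : SchattenClass p H) (k : ι) : ‖coef b k x‖ ≤ ‖toOp x‖ := by
  rw [coef_apply]
  refine (norm_inner_le_norm _ _).trans ?_
  rw [b.orthonormal.1, one_mul]
  refine ((toOp x).le_opNorm _).trans ?_
  rw [b.orthonormal.1, mul_one]

theorem norm_comb_le (c : ℂ) : ‖c • (proj b i + proj b j : H →L[ℂ] H)‖ ≤ ‖c‖ := by
  classical
  refine opNorm_le_bound _ (norm_nonneg _) fun x => ?_
  rw [smul_apply, norm_smul]
  refine mul_le_mul_of_nonneg_left ?_ (norm_nonneg _)
  have h1 : (proj b i + proj b j : H →L[ℂ] H) x = ⟪b i, x⟫_ℂ • b i + ⟪b j, x⟫_ℂ • b j := rfl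
  have h2 : ⟪⟪b i, x⟫_ℂ • b i, ⟪b j, x⟫_ℂ • b j⟫_ℂ = 0 := by
    rw [inner_smul_left, inner_smul_right, b.orthonormal.2 hij, mul_zero, mul_zero]
  have h3 := norm_add_sq_eq_norm_sq_add_norm_sq_of_inner_eq_zero _ _ h2
  rw [norm_smul, norm_smul, b.orthonormal.1, b.orthonormal.1, mul_one, mul_one] at h3
  have h4 := b.orthonormal.sum_inner_products_le x (s := {i, j})
  rw [Finset.sum_pair hij] at h4
  rw [h1]
  have h5 : ‖⟪b i, x⟫_ℂ • b i + ⟪b j, x⟫_ℂ • b j‖ ^ 2 ≤ ‖x‖ ^ 2 := by
    rw [sq, h3, ← sq, ← sq]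
    exact h4
  exact (pow_le_pow_iff_left₀ (norm_nonneg _) (norm_nonneg _) two_ne_zero).1 h5

theorem toOp_exT (x : SchattenClass p H) : toOp (exT b i j x) =
    ((1 / 2 : ℂ) * (coef b i x + coef b j x)) • (proj b i + proj b j) := by
  rw [exT_apply, map_smul, map_add, toOp_projS, toOp_projS]

theorem exT_absolute : IsAbsoluteContraction (exT b i j : SchattenClass p H →L[ℂ] _) := by
  have hle : ∀ x : SchattenClass p H, trPow 1 (toOp (exT b i j x)) ≤ trPow 1 (toOp x) := by
    intro x
    classical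
    rw [toOp_exT b hij, smul_add, trPow_comb b hij one_pos, ENNReal.rpow_one]
    have h1 : ∑' k, ‖⟪b k, toOp x (b k)⟫_ℂ‖ₑ ^ (1 : ℝ) ≤ trPow 1 (toOp x) :=
      biorth_le b.orthonormal b.orthonormal (compact_star_mul (toOp_compact x)) le_rfl
    have h2 := ENNReal.sum_le_tsum (f := fun k => ‖⟪b k, toOp x (b k)⟫_ℂ‖ₑ ^ (1 : ℝ)) {i, j}
    rw [Finset.sum_pair hij] at h2
    simp only [ENNReal.rpow_one] at h1 h2
    refine le_trans ?_ (h2.trans h1)
    rw [← two_mul, enorm_mul, ← mul_assoc]
    have h3 : (2 : ℝ≥0∞) * ‖(1 / 2 : ℂ)‖ₑ = 1 := by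
      rw [← ofReal_norm]
      have : ‖(1 / 2 : ℂ)‖ = 1 / 2 := by norm_num
      rw [this, show (2 : ℝ≥0∞) = ENNReal.ofReal 2 by norm_num, ← ENNReal.ofReal_mul (by norm_num)]
      norm_num
    rw [h3, one_mul]
    exact enorm_add_le _ _
  refine ⟨fun x hx => (hle x).trans_lt hx, fun x _ => hle x, fun x => ?_⟩
  rw [toOp_exT b hij]
  refine (norm_comb_le b hij _).trans ?_
  rw [norm_mul]
  have h1 : ‖(1 / 2 : ℂ)‖ = 1 / 2 := by norm_num
  rw [h1]
  have h2 := norm_add_le (coef b i x) (coef b j x)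
  have h3 := op_bound b hij x i
  have h4 := op_bound b hij x j
  linarith

theorem exT_no_dilation (hp1 : 1 < p) (hp2 : p ≠ 2) (K : Type u) [NormedAddCommGroup K]
    [InnerProductSpace ℂ K] [CompleteSpace K] :
    ¬ HasIsometricDilationOn (SchattenClass p K) (exT b i j : SchattenClass p H →L[ℂ] _) := by
  rintro ⟨J, P, U, hJ, ⟨hP1, hPP, hPr⟩, hU, hdil⟩
  have hp0 : 0 < p := by linarith
  set e : SchattenClass p H := projS p b i + projS p b j with he
  set h : SchattenClass p K := J e with hh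
  have hUn : ∀ (n : ℕ) (y : SchattenClass p K), ‖(U ^ n) y‖ = ‖y‖ := by
    intro n
    induction n with
    | zero => intro y; rw [pow_zero]; rfl
    | succ n ih => intro y; rw [pow_succ, mul_apply_eq_comp, ih, hU]
  have hPle : ∀ y, ‖P y‖ ≤ ‖y‖ := fun y => by
    have := P.le_opNorm y
    rwa [hP1, one_mul] at this
  have hPJ : ∀ x, P (J x) = J x := by
    intro x
    have : J x ∈ Set.range P := by rw [hPr]; exact ⟨x, rfl⟩
    obtain ⟨y, hy⟩ := this
    rw [← hy, hPP]
  -- `U` fixes `h`
  have hUh : U h = h := by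
    have h1 : P (U h) = h := by
      have := hdil 1 e
      rw [pow_one, pow_one, exT_e b hij] at this
      exact this
    have h2 : P (h + U h) = h + h := by rw [map_add, h1, hPJ]
    refine (eq_of_norm_add hp1 (hU h).symm ?_).symm
    calc 2 * ‖h‖ = ‖h + h‖ := by
          rw [← two_smul ℂ h, norm_smul]
          norm_num
      _ = ‖P (h + U h)‖ := by rw [h2]
      _ ≤ _ := hPle _
  have hUnh : ∀ n : ℕ, (U ^ n) h = h := by
    intro n
    induction n with
    | zero => rw [pow_zero]; rfl
    | succ n ih => rw [pow_succ, mul_apply_eq_comp, hUh, ih]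
  -- the disjoint parts
  let z : ℕ → K →L[ℂ] K := fun n => toOp ((U ^ n) (J (projS p b i)))
  let w : ℕ → K →L[ℂ] K := fun n => toOp ((U ^ n) (J (projS p b j)))
  have hzw : ∀ n, toOp h - z n = w n := by
    intro n
    rw [sub_eq_iff_eq_add', ← hUnh n]
    simp only [z, w, hh, he, map_add]
  have hN : ∀ n, ∀ α β : ℂ, trPow p (α • z n + β • w n) = ‖α‖ₑ ^ p + ‖β‖ₑ ^ p := by
    intro n α β
    have h1 : α • z n + β • w n
        = toOp ((U ^ n) (J (α • projS p b i + β • projS p b j))) := by
      simp only [z, w, map_add, map_smul]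
    rw [h1, ← norm_rpow, hUn, hJ, norm_rpow, map_add, map_smul, map_smul, toOp_projS, toOp_projS,
      trPow_comb b hij hp0]
  have hdis : ∀ n, adjoint (z n) ∘L w n = 0 ∧ w n ∘L adjoint (z n) = 0 := fun n =>
    disjoint_of_norm (toOp_compact _) (toOp_compact _) hp0 hp2 (hN n)
  obtain ⟨m, n, hmn, hclose⟩ := exists_close (toOp_compact h) hp1.le (toOp_fin h) z
    (fun n => by rw [hzw]; exact (hdis n).1) (fun n => by rw [hzw]; exact (hdis n).2)
    (ε := ENNReal.ofReal (1 / 2)) (by simp)
  obtain ⟨k, rfl⟩ : ∃ k, n = m + (k + 1) := ⟨n - m - 1, by omega⟩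
  set q : SchattenClass p K := J (projS p b i) with hq
  have h1 : ‖q - (U ^ (k + 1)) q‖ < 1 / 2 := by
    have h2 : ‖q - (U ^ (k + 1)) q‖ = ‖(U ^ m) q - (U ^ (m + (k + 1))) q‖ := by
      have h3 : (U ^ (m + (k + 1))) q = (U ^ m) ((U ^ (k + 1)) q) := by
        rw [pow_add U m (k + 1)]
        rfl
      rw [← hUn m, map_sub, h3]
    rw [h2, norm_eq_np, map_sub]
    have h3 := (ENNReal.toReal_lt_toReal (ne_top_of_lt hclose) ENNReal.ofReal_ne_top).2 hclose
    rwa [ENNReal.toReal_ofReal (by norm_num)] at h3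
  have h2 : P (q - (U ^ (k + 1)) q) = J ((1 / 2 : ℂ) • (projS p b i - projS p b j)) := by
    rw [map_sub, hq, hPJ, hdil, exT_pow_left b hij, ← map_sub]
    congr 1
    rw [smul_add, smul_sub]
    have h3 : projS p b i = (1 / 2 : ℂ) • projS p b i + (1 / 2 : ℂ) • projS p b i := by
      rw [← add_smul]
      norm_num
    nth_rewrite 1 [h3]
    abel
  have h3 : ‖(1 / 2 : ℂ) • (projS p b i - projS p b j)‖ < 1 / 2 := by
    rw [← hJ, ← h2]
    exact (hPle _).trans_lt h1
  have h4 : 1 ≤ ‖projS p b i - projS p b j‖ := by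
    have h5 := coef_le b i (projS p b i - projS p b j)
    have h6 : coef b i (projS p b i - projS p b j) = 1 := by
      rw [map_sub, coef_projS, coef_projS_ne b hij, sub_zero]
    have h7 : ‖coef b i (projS p b i - projS p b j)‖ ≤ 1 * ‖projS p b i - projS p b j‖ := h5
    rwa [h6, norm_one, one_mul] at h7
  rw [norm_smul] at h3
  have h5 : ‖(1 / 2 : ℂ)‖ = 1 / 2 := by norm_num
  rw [h5] at h3
  linarith

end Example

/-- For every infinite-dimensional complex Hilbert space `H` and every `1 < p < ∞` with `p ≠ 2`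
there is an absolute contraction of `𝔖_p(H)` which has no isometric dilation on `𝔖_p(H)`, and in
fact none on `𝔖_p(K)` for any Hilbert space `K`. -/
theorem result (H : Type u) [NormedAddCommGroup H] [InnerProductSpace ℂ H] [CompleteSpace H]
    (hH : ¬ FiniteDimensional ℂ H) (p : ℝ) [Fact (1 ≤ p)] (hp : 1 < p) (hp2 : p ≠ 2) :
    ∃ T : SchattenClass p H →L[ℂ] SchattenClass p H,
      IsAbsoluteContraction T ∧ ¬ HasIsometricDilationOn (SchattenClass p H) T ∧
      ∀ (K : Type u) [NormedAddCommGroup K] [InnerProductSpace ℂ K] [CompleteSpace K],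
        ¬ HasIsometricDilationOn (SchattenClass p K) T := by
  obtain ⟨s, b, hb⟩ := exists_hilbertBasis ℂ H
  have hnt : Nontrivial s := by
    by_contra hcon
    rw [not_nontrivial_iff_subsingleton] at hcon
    apply hH
    have hfin : Finite s := Finite.of_subsingleton
    have : Fintype s := Fintype.ofFinite _
    exact (b.toOrthonormalBasis).toBasis.finiteDimensional_of_finite
  obtain ⟨i, j, hij⟩ := exists_pair_ne s
  exact ⟨exT b i j, exT_absolute b hij, exT_no_dilation b hij hp hp2 H,
    fun K _ _ _ => exT_no_dilation b hij hp hp2 K⟩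

end Pool.Agent.Results.MP_f41f1b_an.NoIsometricDilation
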